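import Pool.Agent.Lib.MP_91e127_an.Final

set_option autoImplicit false

namespace Pool.Agent.Results.MP_91e127_an.NuclearNonDense

open Pool.Agent.Nuclear

/-- There are complex Banach spaces `X` and `Y` such that the nuclear operators `X → Y` which
attain their nuclear norm are not dense, for the nuclear norm, in the space of all nuclear
operators `X → Y`. -/
theorem result :
    ∃ (X Y : Type) (_ : NormedAddCommGroup X) (_ : NormedSpace ℂ X) (_ : CompleteSpace X)
      (_ : NormedAddCommGroup Y) (_ : NormedSpace ℂ Y) (_ : CompleteSpace Y),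
      ¬ (∀ T : X →L[ℂ] Y, IsNuclear T → ∀ δ : ℝ, 0 < δ →
          ∃ S : X →L[ℂ] Y, AttainsNuclearNorm S ∧ nuclearNorm (T - S) < δ) := by
  obtain ⟨ε, n, δ, hε, hδ, h⟩ := Pool.Agent.Davie.main_estimate
  refine ⟨Pool.Agent.Davie.XX, Pool.Agent.Davie.YY ε, inferInstance, inferInstance,
    inferInstance, inferInstance, inferInstance, inferInstance, ?_⟩
  intro hdense
  obtain ⟨S, hS, hlt⟩ := hdense (Pool.Agent.Davie.TT ε n n) (Pool.Agent.Davie.isNuclear_TT ε n n) δ hδ
  exact absurd (h S hS) (not_le.2 hlt)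

end Pool.Agent.Results.MP_91e127_an.NuclearNonDense
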